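import Pool.Agent.H110R3.Urn.Stmts

set_option autoImplicit false

namespace Pool.Agent.H431R3.Urn

open Pool.Agent.H110R3.Urn

lemma sum_prod_bool {ι : Type} [Fintype ι] [DecidableEq ι] (f : ι → Bool → ℝ) :
    ∑ s : ι → Bool, ∏ e, f e (s e) = ∏ e, (f e true + f e false) := by
  have h := Finset.prod_univ_sum (fun _ : ι => (Finset.univ : Finset Bool)) f
  rw [Fintype.piFinset_univ] at h
  rw [← h]
  refine Finset.prod_congr rfl fun e _ => ?_
  simp

/-- the weight of one edge -/
noncomputable def fw {m : ℕ} (G : SimpleGraph (Fin m)) (α : ℝ) (b : Fin m → ℕ) (e : Ed G) (x : Bool) : ℝ :=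
  if x = true then pp α (b e.1.1) (b e.1.2) else 1 - pp α (b e.1.1) (b e.1.2)

lemma w_eq {m : ℕ} (G : SimpleGraph (Fin m)) [DecidableRel G.Adj] (α : ℝ) (b : Fin m → ℕ)
    (s : Ch G) : w G α b s = ∏ e, fw G α b e (s e) := rfl

lemma fw_add {m : ℕ} (G : SimpleGraph (Fin m)) (α : ℝ) (b : Fin m → ℕ) (e : Ed G) :
    fw G α b e true + fw G α b e false = 1 := by
  unfold fw
  simp

lemma marg {m : ℕ} (G : SimpleGraph (Fin m)) [DecidableRel G.Adj] (α : ℝ) (b : Fin m → ℕ)
    (e0 : Ed G) (φ : Bool → ℝ) : ∑ s, w G α b s * φ (s e0) =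
      fw G α b e0 true * φ true + fw G α b e0 false * φ false := by
  have h1 : ∀ s : Ch G, w G α b s * φ (s e0) =
      ∏ e, (fun (e : Ed G) (x : Bool) => fw G α b e x * (if e = e0 then φ x else 1)) e (s e) := by
    intro s
    rw [w_eq]
    rw [Finset.prod_mul_distrib]
    congr 1
    rw [Finset.prod_ite_eq' Finset.univ e0 (fun e => φ (s e))]
    simp
  refine (Finset.sum_congr rfl fun s _ => h1 s).trans ?_
  refine (sum_prod_bool (fun (e : Ed G) (x : Bool) =>
    fw G α b e x * (if e = e0 then φ x else 1))).trans ?_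
  rw [Finset.prod_eq_single e0]
  · simp
  · intro e _ he
    simp only [if_neg he, mul_one]
    exact fw_add G α b e
  · intro h
    exact absurd (Finset.mem_univ _) h

lemma pp_pos {α a c : ℝ} (ha : 0 < a) (hc : 0 < c) : 0 < pp α a c ∧ pp α a c < 1 ∧
    1 - pp α a c = pp α c a := by
  have h1 : 0 < a ^ α := Real.rpow_pos_of_pos ha α
  have h2 : 0 < c ^ α := Real.rpow_pos_of_pos hc α
  unfold pp
  refine ⟨by positivity, ?_, ?_⟩
  · rw [div_lt_one (by positivity)]
    linarith
  · rw [eq_div_iff (by positivity), sub_mul, one_mul, add_comm (c ^ α), div_mul_cancel₀ _ (by positivity)]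
    ring

lemma pp_hom {α a c t : ℝ} (ha : 0 < a) (hc : 0 < c) (ht : 0 < t) :
    pp α (a / t) (c / t) = pp α a c := by
  have h3 : 0 < t ^ α := Real.rpow_pos_of_pos ht α
  have h1 : 0 < a ^ α := Real.rpow_pos_of_pos ha α
  have h2 : 0 < c ^ α := Real.rpow_pos_of_pos hc α
  unfold pp
  rw [Real.div_rpow ha.le ht.le, Real.div_rpow hc.le ht.le]
  field_simp

theorem taskA1 : TaskA1 := by
  intro m G _ α b hb
  have hbpos : ∀ i, (0 : ℝ) < b i := fun i => by exact_mod_cast hb i
  refine ⟨fun s => ?_, ?_, fun i => ?_⟩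
  · rw [w_eq]
    refine Finset.prod_nonneg fun e _ => ?_
    obtain ⟨h1, h2, _⟩ := pp_pos (α := α) (hbpos e.1.1) (hbpos e.1.2)
    unfold fw
    split_ifs
    · exact h1.le
    · linarith
  · simp only [w_eq]
    rw [sum_prod_bool]
    exact Finset.prod_eq_one fun e _ => fw_add G α b e
  · -- mean
    have hY : ∀ s : Ch G, (Y G s i : ℝ) = ∑ e : Ed G,
        (fun x : Bool => if (x = true ∧ e.1.1 = i) ∨ (x = false ∧ e.1.2 = i) then (1:ℝ) else 0) (s e) := by
      intro s
      unfold Y
      rw [Finset.card_filter]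
      push_cast
      rfl
    have h1 : ∑ s, w G α b s * (Y G s i : ℝ) = ∑ e : Ed G,
        ((if e.1.1 = i then pp α (b e.1.1) (b e.1.2) else 0) +
          (if e.1.2 = i then pp α (b e.1.2) (b e.1.1) else 0)) := by
      simp only [hY, Finset.mul_sum]
      rw [Finset.sum_comm]
      refine Finset.sum_congr rfl fun e _ => ?_
      rw [marg G α b e (fun x : Bool =>
        if (x = true ∧ e.1.1 = i) ∨ (x = false ∧ e.1.2 = i) then (1:ℝ) else 0)]
      obtain ⟨_, _, h3⟩ := pp_pos (α := α) (hbpos e.1.1) (hbpos e.1.2)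
      have hf1 : fw G α b e true = pp α (b e.1.1) (b e.1.2) := by unfold fw; simp
      have hf2 : fw G α b e false = pp α (b e.1.2) (b e.1.1) := by
        unfold fw; simp [h3]
      rw [hf1, hf2]
      simp
    rw [h1]
    have htot : 0 < tot b := by
      unfold tot
      exact Finset.sum_pos (fun j _ => hbpos j) ⟨i, Finset.mem_univ _⟩
    have h2 : fF G α (X b) i = ∑ j, if G.Adj i j then pp α (b i) (b j) else 0 := by
      unfold fF
      refine Finset.sum_congr rfl fun j _ => ?_
      split_ifs
      · unfold X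
        exact pp_hom (hbpos i) (hbpos j) htot
      · rfl
    rw [h2]
    rw [← Finset.sum_subtype (Finset.univ.filter fun p : Fin m × Fin m => p.1 < p.2 ∧ G.Adj p.1 p.2)
      (by simp) (fun p : Fin m × Fin m => (if p.1 = i then pp α (b p.1) (b p.2) else 0) +
          (if p.2 = i then pp α (b p.2) (b p.1) else 0))]
    rw [Finset.sum_filter, Fintype.sum_prod_type]
    have h3 : ∀ x y : Fin m, (if x < y ∧ G.Adj x y then
        ((if x = i then pp α (b x) (b y) else 0) + (if y = i then pp α (b y) (b x) else 0)) else 0) =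
        (if x = i then (if i < y ∧ G.Adj i y then pp α (b i) (b y) else 0) else 0) +
        (if y = i then (if x < i ∧ G.Adj x i then pp α (b i) (b x) else 0) else 0) := by
      intro x y
      by_cases hx : x = i
      · subst hx
        by_cases hy : y = x
        · subst hy; simp
        · simp [hy]
      · by_cases hy : y = i
        · subst hy; simp [hx]
        · simp [hx, hy]
    simp only [h3, Finset.sum_add_distrib]
    have h4 : ∑ x : Fin m, ∑ y : Fin m,
        (if x = i then (if i < y ∧ G.Adj i y then pp α (b i) (b y) else 0) else 0) =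
        ∑ y : Fin m, (if i < y ∧ G.Adj i y then pp α (b i) (b y) else 0) := by
      rw [Finset.sum_comm]
      refine Finset.sum_congr rfl fun y _ => ?_
      simp
    have h5 : ∑ x : Fin m, ∑ y : Fin m,
        (if y = i then (if x < i ∧ G.Adj x i then pp α (b i) (b x) else 0) else 0) =
        ∑ x : Fin m, (if x < i ∧ G.Adj x i then pp α (b i) (b x) else 0) := by
      refine Finset.sum_congr rfl fun y _ => ?_
      simp
    rw [h4, h5, ← Finset.sum_add_distrib]
    refine Finset.sum_congr rfl fun j _ => ?_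
    by_cases hadj : G.Adj i j
    · have hne : i ≠ j := hadj.ne
      rcases lt_or_gt_of_ne hne with h | h
      · simp [h, hadj, not_lt.2 h.le]
      · simp [h, hadj, hadj.symm, not_lt.2 h.le]
    · have hadj' : ¬ G.Adj j i := fun h => hadj h.symm
      simp [hadj, hadj']

end Pool.Agent.H431R3.Urn
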